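import Pool.Agent.H25.BCE.Stmts

/-!
MP_696a38_gt, board `bce`, module DE1: the Hamiltonian and its differential on `p₀ = p₁ = 0`.
-/

set_option autoImplicit false

namespace Pool.Agent.H22.BCE

open scoped ContDiff Topology
open Pool.Agent.H73 (P V ex ey pb solA solG mu0 Gam lin)
open Pool.Agent.H25.BCE

theorem En_eq (x : P 3) : En x = x.2 2 ^ 2 + Real.exp (2 * mu0 * x.1 2) * x.2 0 ^ 2 +
    Real.exp (-(2 * mu0 * x.1 2)) * x.2 1 ^ 2 :=
  Pool.Agent.H73.solA_two (k := 0) mu0 x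

theorem am_gm (u b c : ℝ) : 2 * |b * c| ≤ Real.exp u * b ^ 2 + Real.exp (-u) * c ^ 2 := by
  have h1 : Real.exp u = Real.exp (u / 2) ^ 2 := by
    rw [← Real.exp_nat_mul]; congr 1; push_cast; ring
  have h2 : Real.exp (-u) = Real.exp (-(u / 2)) ^ 2 := by
    rw [← Real.exp_nat_mul]; congr 1; push_cast; ring
  have h3 : Real.exp (u / 2) * Real.exp (-(u / 2)) = 1 := by
    rw [← Real.exp_add]; simp
  have h4 : 0 ≤ (Real.exp (u / 2) * |b| - Real.exp (-(u / 2)) * |c|) ^ 2 := sq_nonneg _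
  have h5 : (Real.exp (u / 2) * |b| - Real.exp (-(u / 2)) * |c|) ^ 2 =
      Real.exp (u / 2) ^ 2 * |b| ^ 2 + Real.exp (-(u / 2)) ^ 2 * |c| ^ 2 -
        2 * (Real.exp (u / 2) * Real.exp (-(u / 2))) * (|b| * |c|) := by ring
  rw [h5, h3, sq_abs, sq_abs, ← abs_mul] at h4
  rw [h1, h2]
  linarith

theorem term_zero (hLA1 : LA1Stmt) (x : P 3) (h0 : x.2 0 = 0) (h1 : x.2 1 = 0) (r : ℤ × Gam)
    (hr : r.2 ≠ 0) : expNegInvGlue (dl - En (x + sh r)) = 0 := by
  apply expNegInvGlue.zero_of_nonpos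
  have hb := hLA1 r.2.1 r.2.2 (fun h => hr (Subtype.ext h))
  have e0 : (x + sh r).2 0 = r.2.1.1 := by simp [sh, h0]
  have e1 : (x + sh r).2 1 = r.2.1.2 := by simp [sh, h1]
  rw [En_eq, e0, e1]
  have h2 := am_gm (2 * mu0 * (x + sh r).1 2) r.2.1.1 r.2.1.2
  have h3 := sq_nonneg ((x + sh r).2 2)
  unfold dl
  linarith

theorem term_eq (x : P 3) (h0 : x.2 0 = 0) (h1 : x.2 1 = 0) (j : ℤ) :
    expNegInvGlue (dl - En (x + sh (j, 0))) = - f0 (x.2 2 + j * Per) := by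
  have e0 : (x + sh (j, 0)).2 0 = 0 := by simp [sh, h0]
  have e1 : (x + sh (j, 0)).2 1 = 0 := by simp [sh, h1]
  have e2 : (x + sh (j, 0)).2 2 = x.2 2 + j * Per := by simp [sh]
  rw [En_eq, e0, e1, e2]
  unfold f0
  simp

theorem Ham_eq (hLA1 : LA1Stmt) (x : P 3) (h0 : x.2 0 = 0) (h1 : x.2 1 = 0) :
    Ham x = ff (x.2 2) := by
  unfold Ham ff
  have h2 : ∑ᶠ r : ℤ × Gam, expNegInvGlue (dl - En (x + sh r)) =
      ∑ᶠ j : ℤ, expNegInvGlue (dl - En (x + sh (j, 0))) := by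
    have hinj : Function.Injective (fun j : ℤ => ((j, 0) : ℤ × Gam)) := by
      intro i j h
      exact (Prod.mk.inj h).1
    have h3 := finsum_mem_range (f := fun r : ℤ × Gam => expNegInvGlue (dl - En (x + sh r))) hinj
    rw [← h3, ← finsum_mem_univ]
    apply finsum_mem_inter_support_eq
    ext r
    simp only [Set.mem_inter_iff, Set.mem_univ, true_and, Set.mem_range, Function.mem_support]
    constructor
    · intro h
      refine ⟨?_, h⟩
      by_cases hr : r.2 = 0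
      · exact ⟨r.1, Prod.ext rfl hr.symm⟩
      · exact absurd (term_zero hLA1 x h0 h1 r hr) h
    · rintro ⟨_, h⟩
      exact h
  rw [h2, ← smul_eq_mul, smul_finsum]
  apply finsum_congr
  intro j
  rw [term_eq x h0 h1 j, smul_eq_mul]
  ring

theorem Ham_inv_ex (x : P 3) (i : Fin 3) (hi : i ≠ 2) (τ : ℝ) : Ham (x + τ • ex i) = Ham x := by
  unfold Ham
  congr 1
  apply finsum_congr
  intro r
  congr 2
  rw [En_eq, En_eq]
  have e1 : (x + τ • ex i + sh r).1 2 = (x + sh r).1 2 := by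
    simp [ex, hi.symm]
  have e2 : (x + τ • ex i + sh r).2 = (x + sh r).2 := by
    simp [ex]
  rw [e1, e2]

/-- the reflection of the momenta `p₀`, `p₁` -/
def rfl2 (x : P 3) : P 3 := (x.1, ![-x.2 0, -x.2 1, x.2 2])

theorem Ham_even (x : P 3) : Ham (rfl2 x) = Ham x := by
  unfold Ham
  congr 1
  let e : (ℤ × Gam) ≃ (ℤ × Gam) := (Equiv.refl ℤ).prodCongr (Equiv.neg Gam)
  rw [← finsum_comp_equiv e]
  apply finsum_congr
  intro r
  congr 2
  rw [En_eq, En_eq]
  have e1 : (rfl2 x + sh (e r)).1 2 = (x + sh r).1 2 := by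
    simp [rfl2, sh]
  have e2 : (rfl2 x + sh (e r)).2 0 = - (x + sh r).2 0 := by
    simp [rfl2, sh, e]; ring
  have e3 : (rfl2 x + sh (e r)).2 1 = - (x + sh r).2 1 := by
    simp [rfl2, sh, e]; ring
  have e4 : (rfl2 x + sh (e r)).2 2 = (x + sh r).2 2 := by
    simp [rfl2, sh, e]
  rw [e1, e2, e3, e4]
  ring

/-- derivative along a line -/
theorem line_deriv {F : P 3 → ℝ} {x v : P 3} (hd : DifferentiableAt ℝ F x) :
    HasDerivAt (fun τ : ℝ => F (x + τ • v)) (fderiv ℝ F x v) 0 := by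
  have h2 : HasDerivAt (fun τ : ℝ => x + τ • v) v 0 := by
    simpa using ((hasDerivAt_id (0:ℝ)).smul_const v).const_add x
  have h3 : HasFDerivAt F (fderiv ℝ F x) (x + (0:ℝ) • v) := by
    simpa using hd.hasFDerivAt
  exact h3.comp_hasDerivAt 0 h2

theorem DE1_ey {F : P 3 → ℝ} {x v : P 3} (hd : DifferentiableAt ℝ F x)
    (h : ∀ τ : ℝ, F (x + τ • v) = F (x + (-τ) • v)) : fderiv ℝ F x v = 0 := by
  have h1 := line_deriv (v := v) hd
  have h2 : HasDerivAt (fun τ : ℝ => F (x + (-τ) • v)) (fderiv ℝ F x (-v)) 0 := by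
    have h3 := line_deriv (v := -v) hd
    simpa using h3
  have h4 : (fun τ : ℝ => F (x + (-τ) • v)) = fun τ : ℝ => F (x + τ • v) :=
    funext fun τ => (h τ).symm
  rw [h4] at h2
  have h5 := h1.unique h2
  rw [map_neg] at h5
  linarith

theorem DE1_thm (hHAM : HAMStmt) (hLA1 : LA1Stmt) (_hBLD : BLDStmt) (_hCCP : CCPStmt) :
    DE1Stmt := by
  have hB : ∀ x : P 3, fderiv ℝ Ham x (ex 0) = 0 ∧ fderiv ℝ Ham x (ex 1) = 0 := by
    intro x
    exact ⟨Pool.Agent.H73.fderiv_eq_zero_of_inv fun τ => Ham_inv_ex x 0 (by decide) τ,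
      Pool.Agent.H73.fderiv_eq_zero_of_inv fun τ => Ham_inv_ex x 1 (by decide) τ⟩
  refine ⟨Ham_eq hLA1, hB, ?_⟩
  intro x h0 h1 w
  have hd : DifferentiableAt ℝ Ham x := (hHAM.1.1.differentiable (by simp)) x
  have hx2 : fderiv ℝ Ham x (ex 2) = 0 := by
    apply Pool.Agent.H73.fderiv_eq_zero_of_inv
    intro τ
    rw [Ham_eq hLA1 x h0 h1, Ham_eq hLA1]
    · simp [ex]
    · simp [ex, h0]
    · simp [ex, h1]
  have hy0 : fderiv ℝ Ham x (ey 0) = 0 := by
    apply DE1_ey hd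
    intro τ
    rw [← Ham_even (x + τ • ey 0)]
    congr 1
    refine Prod.ext ?_ ?_
    · simp [rfl2, ey]
    · funext i
      fin_cases i <;> simp [rfl2, ey, h0, h1]
  have hy1 : fderiv ℝ Ham x (ey 1) = 0 := by
    apply DE1_ey hd
    intro τ
    rw [← Ham_even (x + τ • ey 1)]
    congr 1
    refine Prod.ext ?_ ?_
    · simp [rfl2, ey]
    · funext i
      fin_cases i <;> simp [rfl2, ey, h0, h1]
  have hy2 : fderiv ℝ Ham x (ey 2) = deriv ff (x.2 2) := by
    have h2 := line_deriv (v := ey 2) hd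
    have h3 : (fun τ : ℝ => Ham (x + τ • ey 2)) = fun τ : ℝ => ff (x.2 2 + τ) := by
      funext τ
      rw [Ham_eq hLA1]
      · simp [ey]
      · simp [ey, h0]
      · simp [ey, h1]
    rw [h3] at h2
    have h4 : HasDerivAt (fun y : ℝ => ff (x.2 2 + (y - x.2 2))) (fderiv ℝ Ham x (ey 2))
        (x.2 2) := by
      have h5 : HasDerivAt (fun y : ℝ => y - x.2 2) 1 (x.2 2) := by
        simpa using (hasDerivAt_id (x.2 2)).sub_const (x.2 2)
      have h6 : HasDerivAt (fun τ : ℝ => ff (x.2 2 + τ)) (fderiv ℝ Ham x (ey 2))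
          (x.2 2 - x.2 2) := by
        rw [sub_self]; exact h2
      have h8 := HasDerivAt.comp (h := fun y : ℝ => y - x.2 2) (x.2 2) h6 h5
      rw [mul_one] at h8
      exact h8
    have h7 : (fun y : ℝ => ff (x.2 2 + (y - x.2 2))) = ff := by
      funext y
      congr 1
      ring
    rw [h7] at h4
    exact h4.deriv.symm
  have hw : w = w.1 0 • ex 0 + w.1 1 • ex 1 + w.1 2 • ex 2 + w.2 0 • ey 0 + w.2 1 • ey 1 +
      w.2 2 • ey 2 := by
    refine Prod.ext ?_ ?_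
    · funext i
      fin_cases i <;> simp [ex, ey]
    · funext i
      fin_cases i <;> simp [ex, ey]
  calc fderiv ℝ Ham x w = fderiv ℝ Ham x (w.1 0 • ex 0 + w.1 1 • ex 1 + w.1 2 • ex 2 +
        w.2 0 • ey 0 + w.2 1 • ey 1 + w.2 2 • ey 2) := by rw [← hw]
    _ = deriv ff (x.2 2) * w.2 2 := by
      simp only [map_add, map_smul, (hB x).1, (hB x).2, hx2, hy0, hy1, hy2, smul_eq_mul]
      ring

end Pool.Agent.H22.BCE
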