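import Pool.Agent.H25.BCE.Stmts

/-!
MP_696a38_gt, board `bce`, module OR2: all periodic orbits in the class of `dk m 0 a 0`.
-/

set_option autoImplicit false

namespace Pool.Agent.H22.BCE

open scoped ContDiff Topology
open Pool.Agent.H73 (P V ex ey pb solA solG mu0 Gam lin)
open Pool.Agent.H25.BCE

namespace OR2

theorem const_of_deriv (f : ℝ → ℝ) (h : ∀ t, HasDerivAt f 0 t) : ∀ t, f t = f 0 := fun t =>
  is_const_of_deriv_eq_zero (fun t => (h t).differentiableAt) (fun t => (h t).deriv) t 0

theorem coord1 {x : ℝ → P 3} {v : P 3} {t : ℝ} (h : HasDerivAt x v t) (i : Fin 3) :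
    HasDerivAt (fun t => (x t).1 i) (v.1 i) t := by
  have h1 := (ContinuousLinearMap.fst ℝ (V 3) (V 3)).hasFDerivAt.comp_hasDerivAt t h
  exact (hasDerivAt_pi.1 h1) i

theorem coord2 {x : ℝ → P 3} {v : P 3} {t : ℝ} (h : HasDerivAt x v t) (i : Fin 3) :
    HasDerivAt (fun t => (x t).2 i) (v.2 i) t := by
  have h1 := (ContinuousLinearMap.snd ℝ (V 3) (V 3)).hasFDerivAt.comp_hasDerivAt t h
  exact (hasDerivAt_pi.1 h1) i

theorem om_ex (v : P 3) (i : Fin 3) : om v (ex i) = - v.2 i := by
  unfold om
  rw [Finset.sum_eq_single i]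
  · simp [ex]
  · intro j _ hj
    simp [ex, hj]
  · simp

theorem om_ey (v : P 3) (i : Fin 3) : om v (ey i) = v.1 i := by
  unfold om
  rw [Finset.sum_eq_single i]
  · simp [ey]
  · intro j _ hj
    simp [ey, hj]
  · simp

theorem fix_zero {c k : ℝ} (hk : k ≠ 1) (h : c = k * c) : c = 0 := by
  have h1 : c * (1 - k) = 0 := by linarith
  rcases mul_eq_zero.1 h1 with h2 | h2
  · exact h2
  · exact absurd (by linarith : k = 1) hk

theorem fix_aff {c k a : ℝ} (hk : k ≠ 1) (h : c = a + k * c) : c = a / (1 - k) := by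
  have h1 : 1 - k ≠ 0 := fun h2 => hk (by linarith)
  rw [eq_div_iff h1]
  linarith

end OR2

open OR2

theorem OR2_thm (hDE1 : DE1Stmt) (hHAM : HAMStmt) : OR2Stmt := by
  intro m a x hm hp
  have hm' : (0:ℝ) < m := by exact_mod_cast hm
  have hpos : 0 < mu0 * m := mul_pos Pool.Agent.H73.mu0_pos hm'
  have hk1 : Real.exp (mu0 * m) ≠ 1 := by
    intro h
    rw [Real.exp_eq_one_iff] at h
    linarith
  have hk2 : Real.exp (-(mu0 * m)) ≠ 1 := by
    intro h
    rw [Real.exp_eq_one_iff] at h
    linarith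
  have hfd : ∀ y w : P 3, fderiv ℝ ((m : ℝ) • Ham) y w = m * fderiv ℝ Ham y w := by
    intro y w
    have hd : DifferentiableAt ℝ Ham y := (hHAM.1.1.differentiable (by simp)) y
    rw [fderiv_const_smul hd]
    rfl
  choose v hv hw using hp.ham
  have hper1 : ∀ t i, (x (t + 1)).1 i = (trn m 0 a 0).1 i + Real.exp (mu0 * m * wt i) * (x t).1 i := by
    intro t i
    rw [hp.per t, dk_apply]
    simp only [Prod.fst_add, Pi.add_apply, LL_fst]
    simp
  have hper2 : ∀ t i, (x (t + 1)).2 i = (trn m 0 a 0).2 i +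
      Real.exp (-(mu0 * m * wt i)) * (x t).2 i := by
    intro t i
    rw [hp.per t, dk_apply]
    simp only [Prod.snd_add, Pi.add_apply, LL_snd]
    simp
  have hv20 : ∀ t, (v t).2 0 = 0 := by
    intro t
    have h := hw t (ex 0)
    rw [om_ex, hfd, (hDE1.2.1 (x t)).1] at h
    linarith
  have hv21 : ∀ t, (v t).2 1 = 0 := by
    intro t
    have h := hw t (ex 1)
    rw [om_ex, hfd, (hDE1.2.1 (x t)).2] at h
    linarith
  have hc20 := const_of_deriv _ (fun t => by have h := coord2 (hv t) 0; rw [hv20 t] at h; exact h)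
  have hc21 := const_of_deriv _ (fun t => by have h := coord2 (hv t) 1; rw [hv21 t] at h; exact h)
  have hz20 : ∀ t, (x t).2 0 = 0 := by
    intro t
    rw [hc20 t]
    have h := hper2 0 0
    rw [hc20 (0 + 1)] at h
    apply fix_zero hk2
    simpa [trn, wt] using h
  have hz21 : ∀ t, (x t).2 1 = 0 := by
    intro t
    rw [hc21 t]
    have h := hper2 0 1
    rw [hc21 (0 + 1)] at h
    apply fix_zero hk1
    simpa [trn, wt] using h
  have hom : ∀ t w, om (v t) w = m * (deriv ff ((x t).2 2) * w.2 2) := by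
    intro t w
    rw [hw t w, hfd, hDE1.2.2 (x t) (hz20 t) (hz21 t) w]
  have hv10 : ∀ t, (v t).1 0 = 0 := by
    intro t
    rw [← om_ey, hom]
    simp [ey]
  have hv11 : ∀ t, (v t).1 1 = 0 := by
    intro t
    rw [← om_ey, hom]
    simp [ey]
  have hv22 : ∀ t, (v t).2 2 = 0 := by
    intro t
    have h := om_ex (v t) 2
    rw [hom] at h
    simp [ex] at h
    exact h
  have hv12 : ∀ t, (v t).1 2 = m * deriv ff ((x t).2 2) := by
    intro t
    rw [← om_ey, hom]
    simp [ey]
  have hc10 := const_of_deriv _ (fun t => by have h := coord1 (hv t) 0; rw [hv10 t] at h; exact h)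
  have hc11 := const_of_deriv _ (fun t => by have h := coord1 (hv t) 1; rw [hv11 t] at h; exact h)
  have hc22 := const_of_deriv _ (fun t => by have h := coord2 (hv t) 2; rw [hv22 t] at h; exact h)
  have hz10 : ∀ t, (x t).1 0 = a.1 / (1 - Real.exp (mu0 * m)) := by
    intro t
    rw [hc10 t]
    have h := hper1 0 0
    rw [hc10 (0 + 1)] at h
    apply fix_aff hk1
    simpa [trn, wt] using h
  have hz11 : ∀ t, (x t).1 1 = a.2 / (1 - Real.exp (-(mu0 * m))) := by
    intro t
    rw [hc11 t]
    have h := hper1 0 1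
    rw [hc11 (0 + 1)] at h
    apply fix_aff hk2
    simpa [trn, wt] using h
  -- third position coordinate
  set s := (x 0).2 2 with hs
  have hlin : ∀ t, HasDerivAt (fun t => (x t).1 2 - m * deriv ff s * t) 0 t := by
    intro t
    have h := coord1 (hv t) 2
    rw [hv12 t, hc22 t] at h
    have h2 : HasDerivAt (fun t : ℝ => m * deriv ff s * t) (m * deriv ff s) t := by
      simpa using (hasDerivAt_id t).const_mul (m * deriv ff s)
    have h3 := h.sub h2
    rw [sub_self] at h3
    exact h3
  have hc12 := const_of_deriv _ hlin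
  have hx12 : ∀ t, (x t).1 2 = (x 0).1 2 + m * deriv ff s * t := by
    intro t
    have h := hc12 t
    simp only [mul_zero, sub_zero] at h
    linarith
  have hds : deriv ff s = 1 := by
    have h := hper1 0 2
    rw [hx12 (0 + 1)] at h
    have h2 : (x 0).1 2 + m * deriv ff s * (0 + 1) = m + (x 0).1 2 := by
      simpa [trn, wt] using h
    have h3 : m * deriv ff s = m * 1 := by linarith
    exact mul_left_cancel₀ hm'.ne' h3
  refine ⟨(x 0).1 2, s, hds, ?_⟩
  funext t
  refine Prod.ext ?_ ?_
  · funext i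
    fin_cases i
    · simpa [orb] using hz10 t
    · simpa [orb] using hz11 t
    · have h := hx12 t
      rw [hds, mul_one] at h
      simpa [orb] using h
  · funext i
    fin_cases i
    · simpa [orb] using hz20 t
    · simpa [orb] using hz21 t
    · simpa [orb] using hc22 t

end Pool.Agent.H22.BCE
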